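import Mathlib

/-!
# Lipschitz estimate on an annulus from a bound of the derivative
-/

namespace Pool.Agent.FB.GEO2

open Complex ComplexConjugate

/-- The nearest point projection onto a disc is a contraction towards points of its boundary. -/
theorem norm_proj_sub_le {z w : ℂ} (hz : 0 < ‖z‖) (h : ‖w‖ ≤ ‖z‖) :
    ‖((‖w‖ / ‖z‖ : ℝ) : ℂ) * z - w‖ ≤ ‖z - w‖ := by
  have h1 : ‖((‖w‖ / ‖z‖ : ℝ) : ℂ) * z - w‖ ^ 2 ≤ ‖z - w‖ ^ 2 := by
    rw [Complex.sq_norm, Complex.sq_norm, Complex.normSq_sub, Complex.normSq_sub,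
      Complex.normSq_mul, Complex.normSq_ofReal]
    have e1 : (((‖w‖ / ‖z‖ : ℝ) : ℂ) * z * conj w).re = (‖w‖ / ‖z‖) * (z * conj w).re := by
      rw [mul_assoc, Complex.re_ofReal_mul]
    rw [e1]
    have e2 : Complex.normSq z = ‖z‖ ^ 2 := Complex.normSq_eq_norm_sq z
    have e3 : Complex.normSq w = ‖w‖ ^ 2 := Complex.normSq_eq_norm_sq w
    rw [e2, e3]
    have hq : (z * conj w).re ≤ ‖z‖ * ‖w‖ := by
      calc (z * conj w).re ≤ ‖z * conj w‖ := Complex.re_le_norm _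
        _ = ‖z‖ * ‖w‖ := by rw [norm_mul, Complex.norm_conj]
    have e4 : ‖w‖ / ‖z‖ * (‖w‖ / ‖z‖) * ‖z‖ ^ 2 = ‖w‖ ^ 2 := by field_simp
    rw [e4]
    have h5 : ‖w‖ / ‖z‖ ≤ 1 := (div_le_one hz).2 h
    have h6 : (1 - ‖w‖ / ‖z‖) * (z * conj w).re ≤ (1 - ‖w‖ / ‖z‖) * (‖z‖ * ‖w‖) :=
      mul_le_mul_of_nonneg_left hq (by linarith)
    have h7 : (1 - ‖w‖ / ‖z‖) * (‖z‖ * ‖w‖) = ‖z‖ * ‖w‖ - ‖w‖ ^ 2 := by field_simp
    have h8 : 0 ≤ ‖w‖ := norm_nonneg w
    nlinarith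
  exact le_of_sq_le_sq' h1 (norm_nonneg _)
where
  le_of_sq_le_sq' {a b : ℝ} (h : a ^ 2 ≤ b ^ 2) (hb : 0 ≤ b) : a ≤ b :=
    abs_le_of_sq_le_sq' h hb |>.2

theorem norm_exp_sub_one_lower {th : ℝ} (h : |th| ≤ Real.pi) :
    2 / Real.pi * |th| ≤ ‖Complex.exp (I * th) - 1‖ := by
  have hpi : 0 < Real.pi := Real.pi_pos
  rw [Complex.norm_exp_I_mul_ofReal_sub_one]
  have h4 : 2 / Real.pi * (|th| / 2) ≤ Real.sin (|th| / 2) :=
    Real.mul_le_sin (by positivity) (by linarith)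
  have h5 : ‖(2 * Real.sin (th / 2) : ℝ)‖ = 2 * Real.sin (|th| / 2) := by
    rw [Real.norm_eq_abs, abs_mul, abs_of_pos (by norm_num : (0:ℝ) < 2)]
    congr 1
    rcases le_total 0 th with h0 | h0
    · rw [abs_of_nonneg h0]
      exact abs_of_nonneg (Real.sin_nonneg_of_nonneg_of_le_pi (by linarith)
        (by rw [abs_of_nonneg h0] at h; linarith))
    · rw [abs_of_nonpos h0]
      have : Real.sin (th / 2) = - Real.sin (-th / 2) := by
        rw [← Real.sin_neg]; congr 1; ring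
      rw [this, abs_neg]
      exact abs_of_nonneg (Real.sin_nonneg_of_nonneg_of_le_pi (by linarith)
        (by rw [abs_of_nonpos h0] at h; linarith))
  rw [h5]
  calc 2 / Real.pi * |th| = 2 * (2 / Real.pi * (|th| / 2)) := by ring
    _ ≤ 2 * Real.sin (|th| / 2) := by linarith

section

variable {F : Type*} [NormedAddCommGroup F] [NormedSpace ℝ F]

theorem lip_aux {f : ℂ → F} {t R M : ℝ} (ht : 0 < t) (hM0 : 0 ≤ M)
    (hd : ∀ z : ℂ, t ≤ ‖z‖ → ‖z‖ ≤ R → DifferentiableAt ℝ f z)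
    (hM : ∀ z : ℂ, t ≤ ‖z‖ → ‖z‖ ≤ R → ‖fderiv ℝ f z‖ ≤ M)
    {z w : ℂ} (hz2 : ‖z‖ ≤ R) (hw1 : t ≤ ‖w‖) (hwz : ‖w‖ ≤ ‖z‖) :
    ‖f z - f w‖ ≤ 3 * M * ‖z - w‖ := by
  have hw0 : 0 < ‖w‖ := lt_of_lt_of_le ht hw1
  have hz0 : 0 < ‖z‖ := lt_of_lt_of_le hw0 hwz
  have hpi : 0 < Real.pi := Real.pi_pos
  set z1 : ℂ := ((‖w‖ / ‖z‖ : ℝ) : ℂ) * z with hz1
  have hz1n : ‖z1‖ = ‖w‖ := by
    rw [hz1, norm_mul, Complex.norm_real, Real.norm_of_nonneg (by positivity)]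
    field_simp
  -- radial segment
  have hseg : ∀ x ∈ segment ℝ z1 z, t ≤ ‖x‖ ∧ ‖x‖ ≤ R := by
    rintro x ⟨a, b, ha, hb, hab, rfl⟩
    have e : a • z1 + b • z = ((a * (‖w‖ / ‖z‖) + b : ℝ) : ℂ) * z := by
      rw [hz1]
      simp only [Complex.real_smul]
      push_cast
      ring
    rw [e, norm_mul, Complex.norm_real, Real.norm_of_nonneg (by positivity)]
    have e2 : (a * (‖w‖ / ‖z‖) + b) * ‖z‖ = a * ‖w‖ + b * ‖z‖ := by field_simp
    rw [e2]
    constructor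
    · calc t ≤ ‖w‖ := hw1
        _ = a * ‖w‖ + b * ‖w‖ := by rw [← add_mul, hab, one_mul]
        _ ≤ a * ‖w‖ + b * ‖z‖ := by
          have := mul_le_mul_of_nonneg_left hwz hb
          linarith
    · calc a * ‖w‖ + b * ‖z‖ ≤ a * ‖z‖ + b * ‖z‖ := by
            have := mul_le_mul_of_nonneg_left hwz ha
            linarith
        _ = ‖z‖ := by rw [← add_mul, hab, one_mul]
        _ ≤ R := hz2
  have h1 : ‖f z - f z1‖ ≤ M * ‖z - z1‖ := by
    refine (convex_segment z1 z).norm_image_sub_le_of_norm_hasFDerivWithin_le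
      (f' := fun x => fderiv ℝ f x) (fun x hx => ?_) (fun x hx => ?_)
      (left_mem_segment ℝ z1 z) (right_mem_segment ℝ z1 z)
    · exact (hd x (hseg x hx).1 (hseg x hx).2).hasFDerivAt.hasFDerivWithinAt
    · exact hM x (hseg x hx).1 (hseg x hx).2
  have h1' : ‖z - z1‖ ≤ ‖z - w‖ := by
    have : z - z1 = ((1 - ‖w‖ / ‖z‖ : ℝ) : ℂ) * z := by
      rw [hz1]; push_cast; ring
    rw [this, norm_mul, Complex.norm_real,
      Real.norm_of_nonneg (by rw [sub_nonneg, div_le_one hz0]; exact hwz)]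
    have e3 : (1 - ‖w‖ / ‖z‖) * ‖z‖ = ‖z‖ - ‖w‖ := by field_simp
    rw [e3]
    exact norm_sub_norm_le z w
  -- the arc
  have hz10 : z1 ≠ 0 := by
    intro h
    rw [h, norm_zero] at hz1n
    linarith
  set th : ℝ := Complex.arg (w / z1) with hth
  have hth1 : |th| ≤ Real.pi := Complex.abs_arg_le_pi _
  have hwz1 : w = z1 * Complex.exp (I * th) := by
    have h2 : ‖w / z1‖ = 1 := by
      rw [norm_div, hz1n]; exact div_self hw0.ne'
    have h3 := Complex.norm_mul_exp_arg_mul_I (w / z1)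
    rw [h2] at h3
    have h4 : Complex.exp (I * th) = w / z1 := by
      rw [← h3, hth]
      simp [mul_comm]
    rw [h4]
    field_simp
  have harc : ‖f w - f z1‖ ≤ (M * (‖w‖ * |th|)) := by
    set g : ℝ → F := fun u => f (z1 * Complex.exp (I * (u * th : ℝ))) with hg
    have hnorm : ∀ u : ℝ, ‖z1 * Complex.exp (I * (u * th : ℝ))‖ = ‖w‖ := by
      intro u
      rw [norm_mul, hz1n, mul_comm I, Complex.norm_exp_ofReal_mul_I, mul_one]
    have hin : ∀ u : ℝ, t ≤ ‖z1 * Complex.exp (I * (u * th : ℝ))‖ ∧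
        ‖z1 * Complex.exp (I * (u * th : ℝ))‖ ≤ R := by
      intro u
      rw [hnorm u]
      exact ⟨hw1, hwz.trans hz2⟩
    have hder : ∀ u : ℝ, HasDerivAt g
        (fderiv ℝ f (z1 * Complex.exp (I * (u * th : ℝ)))
          (z1 * (Complex.exp (I * (u * th : ℝ)) * (I * th)))) u := by
      intro u
      have hin1 := hin u
      have hf := (hd _ hin1.1 hin1.2).hasFDerivAt
      have hγ : HasDerivAt (fun u : ℝ => z1 * Complex.exp (I * (u * th : ℝ)))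
          (z1 * (Complex.exp (I * (u * th : ℝ)) * (I * th))) u := by
        have h0 : HasDerivAt (fun u : ℝ => ((u * th : ℝ) : ℂ)) (th : ℂ) u := by
          have := (hasDerivAt_mul_const (𝕜 := ℝ) th (x := u)).ofReal_comp
          simpa using this
        have h1 : HasDerivAt (fun u : ℝ => I * ((u * th : ℝ) : ℂ)) (I * (th : ℂ)) u :=
          h0.const_mul I
        exact (h1.cexp).const_mul z1
      exact hf.comp_hasDerivAt u hγ
    have hb : ∀ u : ℝ, ‖fderiv ℝ f (z1 * Complex.exp (I * (u * th : ℝ)))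
          (z1 * (Complex.exp (I * (u * th : ℝ)) * (I * th)))‖ ≤ M * (‖w‖ * |th|) := by
      intro u
      have hin1 := hin u
      refine (ContinuousLinearMap.le_opNorm _ _).trans ?_
      have e : ‖z1 * (Complex.exp (I * (u * th : ℝ)) * (I * th))‖ = ‖w‖ * |th| := by
        rw [← mul_assoc, norm_mul, hnorm u, norm_mul, Complex.norm_I, one_mul, Complex.norm_real,
          Real.norm_eq_abs]
      rw [e]
      exact mul_le_mul_of_nonneg_right (hM _ hin1.1 hin1.2) (by positivity)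
    have hmv := (convex_Icc (0:ℝ) 1).norm_image_sub_le_of_norm_hasDerivWithin_le
      (f := g) (C := M * (‖w‖ * |th|)) (fun u _ => (hder u).hasDerivWithinAt) (fun u _ => hb u)
      (Set.left_mem_Icc.2 zero_le_one) (Set.right_mem_Icc.2 zero_le_one)
    have g0 : g 0 = f z1 := by simp [hg]
    have g1 : g 1 = f w := by simp only [hg, one_mul]; rw [← hwz1]
    rw [g0, g1] at hmv
    simpa using hmv
  have hchord : ‖w‖ * |th| ≤ Real.pi / 2 * ‖z1 - w‖ := by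
    have h2 := norm_exp_sub_one_lower hth1
    have h3 : ‖z1 - w‖ = ‖w‖ * ‖Complex.exp (I * th) - 1‖ := by
      have : z1 - w = z1 * (1 - Complex.exp (I * th)) := by
        conv_lhs => rw [hwz1]
        ring
      rw [this, norm_mul, hz1n, norm_sub_rev]
    rw [h3]
    calc ‖w‖ * |th| = Real.pi / 2 * (‖w‖ * (2 / Real.pi * |th|)) := by field_simp
      _ ≤ Real.pi / 2 * (‖w‖ * ‖Complex.exp (I * th) - 1‖) := by gcongr
  have hproj : ‖z1 - w‖ ≤ ‖z - w‖ := norm_proj_sub_le hz0 hwz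
  have hpi4 : Real.pi ≤ 4 := Real.pi_le_four
  calc ‖f z - f w‖ = ‖(f z - f z1) - (f w - f z1)‖ := by congr 1; abel
    _ ≤ ‖f z - f z1‖ + ‖f w - f z1‖ := norm_sub_le _ _
    _ ≤ M * ‖z - w‖ + M * (Real.pi / 2 * ‖z - w‖) := by
      refine add_le_add (h1.trans (mul_le_mul_of_nonneg_left h1' hM0)) (harc.trans ?_)
      refine mul_le_mul_of_nonneg_left (hchord.trans ?_) hM0
      exact mul_le_mul_of_nonneg_left hproj (by positivity)
    _ ≤ 3 * M * ‖z - w‖ := by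
      have h9 : 0 ≤ M * ‖z - w‖ := by positivity
      nlinarith

/-- A function with derivative bounded by `M` on the annulus is `3 M`-Lipschitz there. -/
theorem annulus_lipschitz {f : ℂ → F} {t R M : ℝ} (ht : 0 < t) (hM0 : 0 ≤ M)
    (hd : ∀ z : ℂ, t ≤ ‖z‖ → ‖z‖ ≤ R → DifferentiableAt ℝ f z)
    (hM : ∀ z : ℂ, t ≤ ‖z‖ → ‖z‖ ≤ R → ‖fderiv ℝ f z‖ ≤ M)
    {z w : ℂ} (hz1 : t ≤ ‖z‖) (hz2 : ‖z‖ ≤ R) (hw1 : t ≤ ‖w‖) (hw2 : ‖w‖ ≤ R) :
    ‖f z - f w‖ ≤ 3 * M * ‖z - w‖ := by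
  rcases le_total ‖w‖ ‖z‖ with h | h
  · exact lip_aux ht hM0 hd hM hz2 hw1 h
  · have := lip_aux ht hM0 hd hM hw2 hz1 h
    rwa [norm_sub_rev, norm_sub_rev w z] at this

end

end Pool.Agent.FB.GEO2
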