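import Mathlib

/-!
# Model map of the catenoidal neck: elementary inequalities (module GEO, part G2)

`X t z = z + t^2 / conj z`.  For points outside the disc of radius `t` the pair
`(X t z, 2 t log |z|)` is an expanding map up to the factor `1/4`.
-/

namespace Pool.Agent.FB.GEO2

open Complex ComplexConjugate

/-- The model map `z + t^2 / conj z`. -/
noncomputable def X (t : ℝ) (z : ℂ) : ℂ := z + (t : ℂ) ^ 2 / conj z

theorem X_eq (t : ℝ) (z : ℂ) (hz : z ≠ 0) :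
    X t z = ((1 + t ^ 2 / ‖z‖ ^ 2 : ℝ) : ℂ) * z := by
  have h1 : z * conj z = ((‖z‖ ^ 2 : ℝ) : ℂ) := by
    rw [Complex.mul_conj, Complex.normSq_eq_norm_sq]
  have h2 : conj z ≠ 0 := by simpa using hz
  have h3 : (‖z‖ : ℂ) ≠ 0 := by simpa using hz
  unfold X
  push_cast
  have h1' : z * conj z = (‖z‖ : ℂ) ^ 2 := by rw [h1]; push_cast; ring
  field_simp
  rw [← h1']
  ring

theorem X_mul_I (t : ℝ) (z : ℂ) : X t (I * z) = I * X t z := by
  by_cases hz : z = 0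
  · subst hz; simp [X]
  · have hI : I * z ≠ 0 := mul_ne_zero I_ne_zero hz
    rw [X_eq t _ hI, X_eq t _ hz]
    simp
    ring

theorem X_conj (t : ℝ) (z : ℂ) : X t (conj z) = conj (X t z) := by
  simp [X]

/-- Radial part of the model inequality. -/
theorem radial_ineq {t r s : ℝ} (ht : 0 < t) (hr : t ≤ r) (hs : t ≤ s) :
    (1 / 4 : ℝ) * (r - s) ^ 2 ≤
      ((1 + t ^ 2 / r ^ 2) * r - (1 + t ^ 2 / s ^ 2) * s) ^ 2
        + 4 * t ^ 2 * (Real.log r - Real.log s) ^ 2 := by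
  have hr0 : 0 < r := lt_of_lt_of_le ht hr
  have hs0 : 0 < s := lt_of_lt_of_le ht hs
  have hkey : (1 + t ^ 2 / r ^ 2) * r - (1 + t ^ 2 / s ^ 2) * s
      = (r - s) * (1 - t ^ 2 / (r * s)) := by
    field_simp
    ring
  rw [hkey]
  by_cases hc : 2 * t ^ 2 ≤ r * s
  · have h1 : t ^ 2 / (r * s) ≤ 1 / 2 := by
      rw [div_le_iff₀ (mul_pos hr0 hs0)]
      linarith
    have h2 : (1 / 4 : ℝ) ≤ (1 - t ^ 2 / (r * s)) ^ 2 := by nlinarith
    have h3 : 0 ≤ 4 * t ^ 2 * (Real.log r - Real.log s) ^ 2 := by positivity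
    have h4 : 0 ≤ (r - s) ^ 2 := sq_nonneg _
    nlinarith [mul_le_mul_of_nonneg_left h2 h4]
  · push Not at hc
    have hr2 : r ≤ 2 * t := by nlinarith
    have hs2 : s ≤ 2 * t := by nlinarith
    have hlog : ∀ a b : ℝ, 0 < a → a ≤ b → b ≤ 2 * t → b - a ≤ 2 * t * (Real.log b - Real.log a) := by
      intro a b ha hab hb
      have hb0 : 0 < b := lt_of_lt_of_le ha hab
      have h5 : Real.log (a / b) ≤ a / b - 1 := Real.log_le_sub_one_of_pos (div_pos ha hb0)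
      rw [Real.log_div ha.ne' hb0.ne'] at h5
      have h6 : 1 - a / b ≤ Real.log b - Real.log a := by linarith
      have h7 : (b - a) = b * (1 - a / b) := by field_simp
      have h8 : 0 ≤ 1 - a / b := by
        rw [sub_nonneg, div_le_one hb0]; exact hab
      rw [h7]
      calc b * (1 - a / b) ≤ (2 * t) * (1 - a / b) := mul_le_mul_of_nonneg_right hb h8
        _ ≤ 2 * t * (Real.log b - Real.log a) := mul_le_mul_of_nonneg_left h6 (by linarith)
    have h9 : (r - s) ^ 2 ≤ 4 * t ^ 2 * (Real.log r - Real.log s) ^ 2 := by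
      rcases le_total r s with h | h
      · have h10 := hlog r s hr0 h hs2
        have h11 : 0 ≤ s - r := by linarith
        nlinarith [mul_self_le_mul_self h11 h10]
      · have h10 := hlog s r hs0 h hr2
        have h11 : 0 ≤ r - s := by linarith
        nlinarith [mul_self_le_mul_self h11 h10]
    have h12 : 0 ≤ ((r - s) * (1 - t ^ 2 / (r * s))) ^ 2 := sq_nonneg _
    nlinarith [sq_nonneg (r - s)]

theorem norm_real_mul_sub_sq (a b : ℝ) (z w : ℂ) :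
    ‖(a : ℂ) * z - (b : ℂ) * w‖ ^ 2
      = (a * ‖z‖ - b * ‖w‖) ^ 2 + 2 * (a * b) * (‖z‖ * ‖w‖ - (z * conj w).re) := by
  have h := fun x : ℂ => Complex.sq_norm x
  rw [h, Complex.normSq_sub]
  have e1 : Complex.normSq ((a : ℂ) * z) = a ^ 2 * ‖z‖ ^ 2 := by
    rw [Complex.normSq_mul, Complex.normSq_ofReal, Complex.normSq_eq_norm_sq]; ring
  have e2 : Complex.normSq ((b : ℂ) * w) = b ^ 2 * ‖w‖ ^ 2 := by
    rw [Complex.normSq_mul, Complex.normSq_ofReal, Complex.normSq_eq_norm_sq]; ring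
  have e3 : ((a : ℂ) * z * conj ((b : ℂ) * w)).re = a * b * (z * conj w).re := by
    have : (a : ℂ) * z * conj ((b : ℂ) * w) = ((a * b : ℝ) : ℂ) * (z * conj w) := by
      simp only [map_mul, Complex.conj_ofReal]
      push_cast
      ring
    rw [this, Complex.re_ofReal_mul]
  rw [e1, e2, e3]
  ring

/-- The model inequality. -/
theorem model_ineq {t : ℝ} {z w : ℂ} (ht : 0 < t) (hz : t ≤ ‖z‖) (hw : t ≤ ‖w‖) :
    (1 / 4 : ℝ) * ‖z - w‖ ^ 2 ≤
      ‖X t z - X t w‖ ^ 2 + 4 * t ^ 2 * (Real.log ‖z‖ - Real.log ‖w‖) ^ 2 := by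
  have hz0 : z ≠ 0 := by
    intro h; subst h; simp at hz; linarith
  have hw0 : w ≠ 0 := by
    intro h; subst h; simp at hw; linarith
  rw [X_eq t z hz0, X_eq t w hw0, norm_real_mul_sub_sq]
  have h1 := norm_real_mul_sub_sq 1 1 z w
  simp only [Complex.ofReal_one, one_mul, mul_one] at h1
  rw [h1]
  have hrad := radial_ineq ht hz hw
  have hq : (z * conj w).re ≤ ‖z‖ * ‖w‖ := by
    calc (z * conj w).re ≤ ‖z * conj w‖ := Complex.re_le_norm _
      _ = ‖z‖ * ‖w‖ := by rw [norm_mul, Complex.norm_conj]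
  have ha : 1 ≤ 1 + t ^ 2 / ‖z‖ ^ 2 := by
    have : 0 ≤ t ^ 2 / ‖z‖ ^ 2 := by positivity
    linarith
  have hb : 1 ≤ 1 + t ^ 2 / ‖w‖ ^ 2 := by
    have : 0 ≤ t ^ 2 / ‖w‖ ^ 2 := by positivity
    linarith
  have hab : 1 ≤ (1 + t ^ 2 / ‖z‖ ^ 2) * (1 + t ^ 2 / ‖w‖ ^ 2) := by nlinarith
  have hd : 0 ≤ ‖z‖ * ‖w‖ - (z * conj w).re := by linarith
  have := mul_le_mul_of_nonneg_right hab hd
  nlinarith

/-- Four unit numbers: the torus lemma. -/
theorem unit_lemma {a b : ℂ} {d : ℝ} (ha : ‖a‖ = 1) (hb : ‖b‖ = 1)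
    (h1 : ‖a * b ^ 2 - 1‖ ≤ d) (h2 : ‖a ^ 2 - b‖ ≤ d) (h3 : ‖a - b ^ 2‖ ≤ d)
    (h4 : ‖a ^ 2 * b - 1‖ ≤ d) : ‖a - 1‖ ≤ 3 * d ∧ ‖b - 1‖ ≤ 3 * d := by
  -- `‖b^4 - 1‖`-free version: `a^2 = (a b^2) (a b^{-2})`, `b^2 = (a^2 b) (a^2 b^{-1})^{-1}`
  have hb2 : ‖b ^ 2‖ = 1 := by rw [norm_pow, hb, one_pow]
  have ha2 : ‖a ^ 2‖ = 1 := by rw [norm_pow, ha, one_pow]
  -- |b^2 - 1| ≤ 2 d
  have e1 : ‖b ^ 2 - 1‖ ≤ 2 * d := by
    have : b ^ 2 - 1 = (a ^ 2 * b - 1) - b * (a ^ 2 - b) := by ring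
    rw [this]
    calc ‖(a ^ 2 * b - 1) - b * (a ^ 2 - b)‖ ≤ ‖a ^ 2 * b - 1‖ + ‖b * (a ^ 2 - b)‖ := norm_sub_le _ _
      _ ≤ d + d := by
        rw [norm_mul, hb, one_mul]; exact add_le_add h4 h2
      _ = 2 * d := by ring
  have e2 : ‖a ^ 2 - 1‖ ≤ 2 * d := by
    have : a ^ 2 - 1 = (a * b ^ 2 - 1) + a * (a - b ^ 2) := by ring
    rw [this]
    calc ‖(a * b ^ 2 - 1) + a * (a - b ^ 2)‖ ≤ ‖a * b ^ 2 - 1‖ + ‖a * (a - b ^ 2)‖ := norm_add_le _ _
      _ ≤ d + d := by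
        rw [norm_mul, ha, one_mul]; exact add_le_add h1 h3
      _ = 2 * d := by ring
  constructor
  · have : a - 1 = (a * b ^ 2 - 1) - a * (b ^ 2 - 1) := by ring
    rw [this]
    calc ‖(a * b ^ 2 - 1) - a * (b ^ 2 - 1)‖ ≤ ‖a * b ^ 2 - 1‖ + ‖a * (b ^ 2 - 1)‖ := norm_sub_le _ _
      _ ≤ d + 2 * d := by
        rw [norm_mul, ha, one_mul]; exact add_le_add h1 e1
      _ = 3 * d := by ring
  · have : b - 1 = (a ^ 2 * b - 1) - b * (a ^ 2 - 1) := by ring
    rw [this]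
    calc ‖(a ^ 2 * b - 1) - b * (a ^ 2 - 1)‖ ≤ ‖a ^ 2 * b - 1‖ + ‖b * (a ^ 2 - 1)‖ := norm_sub_le _ _
      _ ≤ d + 2 * d := by
        rw [norm_mul, hb, one_mul]; exact add_le_add h4 e2
      _ = 3 * d := by ring

/-- A real number whose exponential is close to `1` is close to `2 π ℤ`. -/
theorem near_two_pi_int {s d : ℝ} (h : ‖Complex.exp (I * s) - 1‖ ≤ d) :
    ∃ n : ℤ, |s - 2 * Real.pi * n| ≤ Real.pi / 2 * d := by
  refine ⟨round (s / (2 * Real.pi)), ?_⟩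
  set n : ℤ := round (s / (2 * Real.pi)) with hn
  have hpi : 0 < Real.pi := Real.pi_pos
  have h1 : |s / (2 * Real.pi) - n| ≤ 1 / 2 := abs_sub_round _
  set th : ℝ := s - 2 * Real.pi * n with hth
  have h2 : |th| ≤ Real.pi := by
    have : th = 2 * Real.pi * (s / (2 * Real.pi) - n) := by
      rw [hth]; field_simp
    rw [this, abs_mul, abs_of_pos (by positivity)]
    calc 2 * Real.pi * |s / (2 * Real.pi) - n| ≤ 2 * Real.pi * (1 / 2) :=
          mul_le_mul_of_nonneg_left h1 (by positivity)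
      _ = Real.pi := by ring
  have h3 : Complex.exp (I * s) = Complex.exp (I * th) := by
    have : I * (s : ℂ) = I * (th : ℂ) + n * (2 * Real.pi * I) := by
      rw [hth]; push_cast; ring
    rw [this, Complex.exp_add, Complex.exp_int_mul_two_pi_mul_I, mul_one]
  rw [h3, Complex.norm_exp_I_mul_ofReal_sub_one] at h
  have h4 : 2 / Real.pi * (|th| / 2) ≤ Real.sin (|th| / 2) :=
    Real.mul_le_sin (by positivity) (by linarith)
  have h5 : ‖(2 * Real.sin (th / 2) : ℝ)‖ = 2 * Real.sin (|th| / 2) := by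
    rw [Real.norm_eq_abs, abs_mul, abs_of_pos (by norm_num : (0:ℝ) < 2)]
    congr 1
    rcases le_total 0 th with h0 | h0
    · rw [abs_of_nonneg h0]
      exact abs_of_nonneg (Real.sin_nonneg_of_nonneg_of_le_pi (by linarith)
        (by rw [abs_of_nonneg h0] at h2; linarith))
    · rw [abs_of_nonpos h0]
      have : Real.sin (th / 2) = - Real.sin (-th / 2) := by
        rw [← Real.sin_neg]; congr 1; ring
      rw [this, abs_neg]
      exact abs_of_nonneg (Real.sin_nonneg_of_nonneg_of_le_pi (by linarith)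
        (by rw [abs_of_nonpos h0] at h2; linarith))
  rw [h5] at h
  have h6 : 2 / Real.pi * |th| ≤ d := by
    calc 2 / Real.pi * |th| = 2 * (2 / Real.pi * (|th| / 2)) := by ring
      _ ≤ 2 * Real.sin (|th| / 2) := by linarith
      _ ≤ d := h
  calc |th| = Real.pi / 2 * (2 / Real.pi * |th|) := by field_simp
    _ ≤ Real.pi / 2 * d := mul_le_mul_of_nonneg_left h6 (by positivity)

end Pool.Agent.FB.GEO2
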