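import Mathlib
import Pool.Agent.FB.GEO2.Model

/-!
# Injectivity modulo `N L` (module GEO, part G2)

Everything is deduced from the following data (part of Theorem M): `psi` is a Bloch function with
momentum `eps (1, 2)`, and on the annulus `t ≤ |z| ≤ 3/4` it is the model
`1 + i kappa.X(z) - sqrt2 k t log (|z|/t)` up to an error which is bounded by `eta k` and
`3 eta k`-Lipschitz.
-/

namespace Pool.Agent.FB.GEO2

open Complex ComplexConjugate

/-- `kappa . x` for `kappa = eps (1, 2)`. -/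
def kdot (eps : ℝ) (x : ℂ) : ℝ := eps * (x.re + 2 * x.im)

theorem kdot_add (eps : ℝ) (x y : ℂ) : kdot eps (x + y) = kdot eps x + kdot eps y := by
  simp [kdot]; ring

theorem kdot_sub (eps : ℝ) (x y : ℂ) : kdot eps (x - y) = kdot eps x - kdot eps y := by
  simp [kdot]; ring

theorem abs_kdot_le {eps : ℝ} (h : 0 ≤ eps) (x : ℂ) : |kdot eps x| ≤ Real.sqrt 5 * eps * ‖x‖ := by
  unfold kdot
  rw [abs_mul, abs_of_nonneg h]
  have h1 : |x.re + 2 * x.im| ≤ Real.sqrt 5 * ‖x‖ := by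
    apply abs_le_of_sq_le_sq
    · rw [mul_pow, Real.sq_sqrt (by norm_num), Complex.sq_norm, Complex.normSq_apply]
      nlinarith [sq_nonneg (2 * x.re - x.im)]
    · positivity
  nlinarith

/-- The four momenta. -/
theorem sum_kdot_sq (eps : ℝ) (w : ℂ) :
    kdot eps w ^ 2 + kdot eps (I * w) ^ 2 + kdot eps (conj w) ^ 2 + kdot eps (I * conj w) ^ 2
      = 2 * (Real.sqrt 5 * eps) ^ 2 * ‖w‖ ^ 2 := by
  rw [mul_pow, Real.sq_sqrt (by norm_num), Complex.sq_norm, Complex.normSq_apply]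
  simp [kdot]
  ring

/-- The perforated plane. -/
def E (t : ℝ) : Set ℂ := {x | ∀ a b : ℤ, t ≤ ‖x - ((a : ℂ) + b * I)‖}

theorem E_mul_I {t : ℝ} {x : ℂ} (hx : x ∈ E t) : I * x ∈ E t := by
  intro a b
  have h := hx b (-a)
  have e : I * x - ((a : ℂ) + b * I) = I * (x - (((b : ℤ) : ℂ) + ((-a : ℤ) : ℂ) * I)) := by
    push_cast
    have : I * I = -1 := I_mul_I
    linear_combination (-(a : ℂ)) * this
  rw [e, norm_mul, Complex.norm_I, one_mul]
  exact h

theorem E_conj {t : ℝ} {x : ℂ} (hx : x ∈ E t) : conj x ∈ E t := by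
  intro a b
  have h := hx a (-b)
  have e : conj x - ((a : ℂ) + b * I) = conj (x - ((a : ℂ) + ((-b : ℤ) : ℂ) * I)) := by
    simp
  rw [e, Complex.norm_conj]
  exact h

theorem E_add {t : ℝ} {x : ℂ} (hx : x ∈ E t) (m n : ℤ) : x + ((m : ℂ) + n * I) ∈ E t := by
  intro a b
  have h := hx (a - m) (b - n)
  have e : x + ((m : ℂ) + n * I) - ((a : ℂ) + b * I)
      = x - (((a - m : ℤ) : ℂ) + ((b - n : ℤ) : ℂ) * I) := by
    push_cast; ring
  rw [e]
  exact h

/-- Nearest lattice point. -/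
theorem exists_near (x : ℂ) : ∃ a b : ℤ, ‖x - ((a : ℂ) + b * I)‖ ≤ 0.7072 := by
  refine ⟨round x.re, round x.im, ?_⟩
  have h1 := abs_sub_round x.re
  have h2 := abs_sub_round x.im
  apply le_of_sq_le_sq'' _ (by norm_num)
  rw [Complex.sq_norm, Complex.normSq_apply]
  have e1 : (x - ((round x.re : ℂ) + round x.im * I)).re = x.re - round x.re := by simp
  have e2 : (x - ((round x.re : ℂ) + round x.im * I)).im = x.im - round x.im := by simp
  rw [e1, e2]
  have h3 := abs_le.1 h1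
  have h4 := abs_le.1 h2
  nlinarith
where
  le_of_sq_le_sq'' {a b : ℝ} (h : a ^ 2 ≤ b ^ 2) (hb : 0 ≤ b) : a ≤ b :=
    (abs_le_of_sq_le_sq' h hb).2

theorem mul_log_le {t r : ℝ} (ht : 0 < t) (htr : t ≤ r) (hr : r ≤ 1) :
    |t * Real.log (r / t)| ≤ 2 * Real.sqrt t := by
  have hr0 : 0 < r := lt_of_lt_of_le ht htr
  have h0 : 0 ≤ Real.log (r / t) := Real.log_nonneg ((one_le_div ht).2 htr)
  rw [abs_of_nonneg (by positivity)]
  have hst : 0 < Real.sqrt t := Real.sqrt_pos.2 ht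
  have h1 : Real.log (r / t) ≤ Real.log (1 / t) := by
    apply Real.log_le_log (by positivity)
    gcongr
  have h2 : Real.log (1 / t) = 2 * Real.log (1 / Real.sqrt t) := by
    rw [one_div, one_div, Real.log_inv, Real.log_inv, Real.log_sqrt ht.le]
    ring
  have h3 : Real.log (1 / Real.sqrt t) ≤ 1 / Real.sqrt t - 1 :=
    Real.log_le_sub_one_of_pos (by positivity)
  have h4 : Real.log (r / t) ≤ 2 / Real.sqrt t := by
    calc Real.log (r / t) ≤ 2 * Real.log (1 / Real.sqrt t) := by rw [← h2]; exact h1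
      _ ≤ 2 * (1 / Real.sqrt t - 1) := by linarith
      _ ≤ 2 / Real.sqrt t := by ring_nf; linarith
  calc t * Real.log (r / t) ≤ t * (2 / Real.sqrt t) := mul_le_mul_of_nonneg_left h4 ht.le
    _ = 2 * Real.sqrt t := by
      have : t = Real.sqrt t * Real.sqrt t := (Real.mul_self_sqrt ht.le).symm
      field_simp
      rw [Real.sq_sqrt ht.le]

/-- The data used for the injectivity. -/
structure NeckData (N : ℕ) (eps k t eta : ℝ) (psi err : ℂ → ℂ) : Prop where
  hN : 0 < N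
  heps : eps = 2 * Real.pi / N
  hk : k = Real.sqrt 5 * eps
  ht : 0 < t
  heta : 0 ≤ eta
  bloch : ∀ x ∈ E t, ∀ (a b : ℤ),
    psi (x + ((a : ℂ) + b * I)) = Complex.exp (I * kdot eps ((a : ℂ) + b * I)) * psi x
  model : ∀ z : ℂ, t ≤ ‖z‖ → ‖z‖ ≤ 3 / 4 →
    psi z = 1 + I * (kdot eps (X t z) : ℂ) - ((Real.sqrt 2 * k * t * Real.log (‖z‖ / t) : ℝ) : ℂ)
      + err z
  err_le : ∀ z : ℂ, t ≤ ‖z‖ → ‖z‖ ≤ 3 / 4 → ‖err z‖ ≤ eta * k
  err_lip : ∀ z w : ℂ, t ≤ ‖z‖ → ‖z‖ ≤ 3 / 4 → t ≤ ‖w‖ → ‖w‖ ≤ 3 / 4 →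
    ‖err z - err w‖ ≤ 3 * (eta * k) * ‖z - w‖
  small : k + t + 3 * Real.sqrt t + eta ≤ 1 / 1000

variable {N : ℕ} {eps k t eta : ℝ} {psi err : ℂ → ℂ}

namespace NeckData

theorem eps_pos (h : NeckData N eps k t eta psi err) : 0 < eps := by
  rw [h.heps]
  have := h.hN
  have hpi := Real.pi_pos
  positivity

theorem k_pos (h : NeckData N eps k t eta psi err) : 0 < k := by
  rw [h.hk]
  have := h.eps_pos
  positivity

theorem k_le (h : NeckData N eps k t eta psi err) : k ≤ 1 / 1000 := by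
  have h1 := h.small
  have h2 := h.ht
  have h3 := h.heta
  have h4 := Real.sqrt_nonneg t
  linarith

theorem eta_le (h : NeckData N eps k t eta psi err) : eta ≤ 1 / 1000 := by
  have h1 := h.small
  have h2 := h.ht
  have h3 := h.k_pos
  have h4 := Real.sqrt_nonneg t
  linarith

/-- `psi` is close to the plane wave near the hole at the origin. -/
theorem near_wave0 (h : NeckData N eps k t eta psi err) {z : ℂ} (h1 : t ≤ ‖z‖)
    (h2 : ‖z‖ ≤ 3 / 4) :
    ‖psi z - Complex.exp (I * kdot eps z)‖ ≤ k * (k + t + 3 * Real.sqrt t + eta) := by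
  have hk := h.k_pos
  have ht := h.ht
  have hz0 : 0 < ‖z‖ := lt_of_lt_of_le ht h1
  have hz : z ≠ 0 := norm_pos_iff.1 hz0
  have hkd : |kdot eps z| ≤ k * ‖z‖ := by rw [h.hk]; exact abs_kdot_le h.eps_pos.le z
  -- exponential
  have hexp : ‖Complex.exp (I * kdot eps z) - 1 - I * kdot eps z‖ ≤ k * k := by
    have hn : ‖I * (kdot eps z : ℂ)‖ = |kdot eps z| := by
      rw [norm_mul, Complex.norm_I, one_mul, Complex.norm_real, Real.norm_eq_abs]
    have hle : |kdot eps z| ≤ k := by nlinarith [h.k_le]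
    have h3 := Complex.norm_exp_sub_one_sub_id_le (x := I * (kdot eps z : ℂ))
      (by rw [hn]; linarith [h.k_le])
    rw [hn] at h3
    refine h3.trans ?_
    nlinarith [abs_nonneg (kdot eps z)]
  -- the reflected term
  have hX : ‖I * (kdot eps (X t z) : ℂ) - I * (kdot eps z : ℂ)‖ ≤ k * t := by
    rw [← mul_sub, norm_mul, Complex.norm_I, one_mul, ← Complex.ofReal_sub, ← kdot_sub,
      Complex.norm_real, Real.norm_eq_abs]
    have e : X t z - z = (t : ℂ) ^ 2 / conj z := by simp [X]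
    rw [e]
    refine (abs_kdot_le h.eps_pos.le _).trans ?_
    rw [← h.hk]
    refine mul_le_mul_of_nonneg_left ?_ hk.le
    rw [norm_div, norm_pow, Complex.norm_real, Real.norm_of_nonneg ht.le, Complex.norm_conj,
      div_le_iff₀ hz0]
    nlinarith
  -- the logarithm
  have hlog : ‖((Real.sqrt 2 * k * t * Real.log (‖z‖ / t) : ℝ) : ℂ)‖ ≤ k * (3 * Real.sqrt t) := by
    rw [Complex.norm_real, Real.norm_eq_abs]
    have e : Real.sqrt 2 * k * t * Real.log (‖z‖ / t)
        = Real.sqrt 2 * k * (t * Real.log (‖z‖ / t)) := by ring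
    rw [e, abs_mul, abs_of_nonneg (by positivity)]
    have h4 := mul_log_le ht h1 (by linarith)
    have h5 : Real.sqrt 2 ≤ 3 / 2 := by
      rw [Real.sqrt_le_left (by norm_num)]; norm_num
    have h6 := Real.sqrt_nonneg t
    calc Real.sqrt 2 * k * |t * Real.log (‖z‖ / t)| ≤ Real.sqrt 2 * k * (2 * Real.sqrt t) := by
          gcongr
      _ ≤ 3 / 2 * k * (2 * Real.sqrt t) := by gcongr
      _ = k * (3 * Real.sqrt t) := by ring
  have herr := h.err_le z h1 h2
  have e : psi z - Complex.exp (I * kdot eps z)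
      = -(Complex.exp (I * kdot eps z) - 1 - I * kdot eps z)
        + (I * (kdot eps (X t z) : ℂ) - I * (kdot eps z : ℂ))
        - ((Real.sqrt 2 * k * t * Real.log (‖z‖ / t) : ℝ) : ℂ) + err z := by
    rw [h.model z h1 h2]; ring
  rw [e]
  calc _ ≤ ‖-(Complex.exp (I * kdot eps z) - 1 - I * kdot eps z)
        + (I * (kdot eps (X t z) : ℂ) - I * (kdot eps z : ℂ))
        - ((Real.sqrt 2 * k * t * Real.log (‖z‖ / t) : ℝ) : ℂ)‖ + ‖err z‖ := norm_add_le _ _
    _ ≤ (‖-(Complex.exp (I * kdot eps z) - 1 - I * kdot eps z)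
        + (I * (kdot eps (X t z) : ℂ) - I * (kdot eps z : ℂ))‖
        + ‖((Real.sqrt 2 * k * t * Real.log (‖z‖ / t) : ℝ) : ℂ)‖) + ‖err z‖ := by
      gcongr; exact norm_sub_le _ _
    _ ≤ ((‖-(Complex.exp (I * kdot eps z) - 1 - I * kdot eps z)‖
        + ‖I * (kdot eps (X t z) : ℂ) - I * (kdot eps z : ℂ)‖)
        + ‖((Real.sqrt 2 * k * t * Real.log (‖z‖ / t) : ℝ) : ℂ)‖) + ‖err z‖ := by
      gcongr; exact norm_add_le _ _
    _ ≤ ((k * k + k * t) + k * (3 * Real.sqrt t)) + eta * k := by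
      rw [norm_neg]; gcongr
    _ = k * (k + t + 3 * Real.sqrt t + eta) := by ring

/-- `psi` is close to the plane wave on the perforated plane. -/
theorem near_wave (h : NeckData N eps k t eta psi err) {x : ℂ} (hx : x ∈ E t) :
    ‖psi x - Complex.exp (I * kdot eps x)‖ ≤ k * (k + t + 3 * Real.sqrt t + eta) := by
  obtain ⟨a, b, hab⟩ := exists_near x
  have h1 := hx a b
  set z : ℂ := x - ((a : ℂ) + b * I) with hz
  have hxz : x = z + ((a : ℂ) + b * I) := by rw [hz]; ring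
  have h2 := h.near_wave0 h1 (hab.trans (by norm_num))
  have e0 : I * (kdot eps (z + ((a : ℂ) + b * I)) : ℂ)
      = I * (kdot eps ((a : ℂ) + b * I) : ℂ) + I * (kdot eps z : ℂ) := by
    rw [kdot_add]; push_cast; ring
  have hn : ‖Complex.exp (I * (kdot eps ((a : ℂ) + b * I) : ℂ))‖ = 1 := by
    rw [mul_comm, Complex.norm_exp_ofReal_mul_I]
  have hzE : z ∈ E t := by
    have h3 := E_add hx (-a) (-b)
    have e3 : x + (((-a : ℤ) : ℂ) + ((-b : ℤ) : ℂ) * I) = z := by
      rw [hz]; push_cast; ring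
    rw [e3] at h3
    exact h3
  rw [hxz, h.bloch z hzE, e0, Complex.exp_add, ← mul_sub, norm_mul, hn, one_mul]
  exact h2

theorem wave_close (h : NeckData N eps k t eta psi err) {x y : ℂ} (hx : x ∈ E t) (hy : y ∈ E t)
    (hxy : psi x = psi y) :
    ‖Complex.exp (I * kdot eps (x - y)) - 1‖ ≤ 2 * (k * (k + t + 3 * Real.sqrt t + eta)) := by
  have h1 := h.near_wave hx
  have h2 := h.near_wave hy
  have e : Complex.exp (I * kdot eps (x - y)) - 1
      = (Complex.exp (I * kdot eps x) - Complex.exp (I * kdot eps y))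
        * Complex.exp (-(I * kdot eps y)) := by
    rw [sub_mul, ← Complex.exp_add, ← Complex.exp_add, kdot_sub]
    push_cast
    simp only [add_neg_cancel, Complex.exp_zero]
    ring_nf
  have hn : ‖Complex.exp (-(I * kdot eps y))‖ = 1 := by
    have : -(I * (kdot eps y : ℂ)) = ((-kdot eps y : ℝ) : ℂ) * I := by push_cast; ring
    rw [this, Complex.norm_exp_ofReal_mul_I]
  rw [e, norm_mul, hn, mul_one]
  calc ‖Complex.exp (I * kdot eps x) - Complex.exp (I * kdot eps y)‖
      = ‖(psi y - Complex.exp (I * kdot eps y)) - (psi x - Complex.exp (I * kdot eps x))‖ := by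
        rw [hxy]; congr 1; ring
    _ ≤ ‖psi y - Complex.exp (I * kdot eps y)‖ + ‖psi x - Complex.exp (I * kdot eps x)‖ :=
        norm_sub_le _ _
    _ ≤ 2 * (k * (k + t + 3 * Real.sqrt t + eta)) := by linarith

/-- Local injectivity around one hole. -/
theorem local_inj (h : NeckData N eps k t eta psi err) {z w : ℂ} (hz1 : t ≤ ‖z‖)
    (hz2 : ‖z‖ ≤ 3 / 4) (hw1 : t ≤ ‖w‖) (hw2 : ‖w‖ ≤ 3 / 4)
    (h1 : psi z = psi w) (h2 : psi (I * z) = psi (I * w)) (h3 : psi (conj z) = psi (conj w))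
    (h4 : psi (I * conj z) = psi (I * conj w)) : z = w := by
  have hk := h.k_pos
  have ht := h.ht
  -- one direction
  have key : ∀ (a b : ℂ), ‖a‖ = ‖z‖ → ‖b‖ = ‖w‖ → ‖a - b‖ = ‖z - w‖ → psi a = psi b →
      (kdot eps (X t a - X t b)) ^ 2 + 2 * k ^ 2 * t ^ 2 * (Real.log ‖z‖ - Real.log ‖w‖) ^ 2
        ≤ 9 * eta ^ 2 * k ^ 2 * ‖z - w‖ ^ 2 := by
    intro a b ha hb hab hpsi
    have ha1 : t ≤ ‖a‖ := by rw [ha]; exact hz1
    have ha2 : ‖a‖ ≤ 3 / 4 := by rw [ha]; exact hz2
    have hb1 : t ≤ ‖b‖ := by rw [hb]; exact hw1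
    have hb2 : ‖b‖ ≤ 3 / 4 := by rw [hb]; exact hw2
    have ma := h.model a ha1 ha2
    have mb := h.model b hb1 hb2
    have hl := h.err_lip a b ha1 ha2 hb1 hb2
    have hza : Real.log (‖a‖ / t) - Real.log (‖b‖ / t) = Real.log ‖z‖ - Real.log ‖w‖ := by
      have haz : ‖a‖ ≠ 0 := (lt_of_lt_of_le ht ha1).ne'
      have hbz : ‖b‖ ≠ 0 := (lt_of_lt_of_le ht hb1).ne'
      rw [Real.log_div haz ht.ne', Real.log_div hbz ht.ne', ha, hb]
      ring
    have e : err b - err a = ((-(Real.sqrt 2 * k * t * (Real.log ‖z‖ - Real.log ‖w‖)) : ℝ) : ℂ)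
        + ((kdot eps (X t a - X t b) : ℝ) : ℂ) * I := by
      rw [← hza, kdot_sub]
      have e1 : psi a - psi b = 0 := by rw [hpsi]; ring
      rw [ma, mb] at e1
      push_cast at e1 ⊢
      linear_combination (-1 : ℂ) * e1
    have hn : ‖err b - err a‖ ^ 2
        = (Real.sqrt 2 * k * t * (Real.log ‖z‖ - Real.log ‖w‖)) ^ 2
          + (kdot eps (X t a - X t b)) ^ 2 := by
      rw [e, Complex.sq_norm, Complex.normSq_add_mul_I]
      ring
    have h5 : ‖err b - err a‖ ≤ 3 * (eta * k) * ‖z - w‖ := by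
      rw [norm_sub_rev, ← hab]; exact hl
    have h6 : ‖err b - err a‖ ^ 2 ≤ (3 * (eta * k) * ‖z - w‖) ^ 2 :=
      pow_le_pow_left₀ (norm_nonneg _) h5 2
    rw [hn] at h6
    have h7 : (Real.sqrt 2 * k * t * (Real.log ‖z‖ - Real.log ‖w‖)) ^ 2
        = 2 * k ^ 2 * t ^ 2 * (Real.log ‖z‖ - Real.log ‖w‖) ^ 2 := by
      have : Real.sqrt 2 ^ 2 = 2 := Real.sq_sqrt (by norm_num)
      calc _ = Real.sqrt 2 ^ 2 * k ^ 2 * t ^ 2 * (Real.log ‖z‖ - Real.log ‖w‖) ^ 2 := by ring
        _ = _ := by rw [this]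
    rw [h7] at h6
    calc _ = 2 * k ^ 2 * t ^ 2 * (Real.log ‖z‖ - Real.log ‖w‖) ^ 2
          + (kdot eps (X t a - X t b)) ^ 2 := by ring
      _ ≤ (3 * (eta * k) * ‖z - w‖) ^ 2 := h6
      _ = _ := by ring
  have nI : ∀ v : ℂ, ‖I * v‖ = ‖v‖ := fun v => by rw [norm_mul, Complex.norm_I, one_mul]
  have k1 := key z w rfl rfl rfl h1
  have k2 := key (I * z) (I * w) (nI z) (nI w) (by rw [← mul_sub, nI]) h2
  have k3 := key (conj z) (conj w) (Complex.norm_conj z) (Complex.norm_conj w)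
    (by rw [← map_sub, Complex.norm_conj]) h3
  have k4 := key (I * conj z) (I * conj w) (by rw [nI, Complex.norm_conj])
    (by rw [nI, Complex.norm_conj]) (by rw [← mul_sub, nI, ← map_sub, Complex.norm_conj]) h4
  rw [X_mul_I, X_mul_I, ← mul_sub] at k2
  rw [X_conj, X_conj, ← map_sub] at k3
  rw [X_mul_I, X_mul_I, X_conj, X_conj, ← mul_sub, ← map_sub] at k4
  have hsum := sum_kdot_sq eps (X t z - X t w)
  rw [← h.hk] at hsum
  have hmod := model_ineq ht hz1 hw1
  have h8 : 2 * k ^ 2 * (‖X t z - X t w‖ ^ 2 + 4 * t ^ 2 * (Real.log ‖z‖ - Real.log ‖w‖) ^ 2)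
      ≤ 36 * eta ^ 2 * k ^ 2 * ‖z - w‖ ^ 2 := by
    nlinarith
  have h9 : 2 * k ^ 2 * ((1 / 4 : ℝ) * ‖z - w‖ ^ 2) ≤ 36 * eta ^ 2 * k ^ 2 * ‖z - w‖ ^ 2 :=
    (mul_le_mul_of_nonneg_left hmod (by positivity)).trans h8
  have he := h.eta_le
  have he0 := h.heta
  have he2 : eta ^ 2 ≤ (1 / 1000) ^ 2 := pow_le_pow_left₀ he0 he 2
  by_contra hne
  have hpos : 0 < ‖z - w‖ := norm_pos_iff.2 (sub_ne_zero.2 hne)
  have hpos2 : 0 < k ^ 2 * ‖z - w‖ ^ 2 := by positivity
  nlinarith

/-- Periodicity of `psi` with respect to `N L`. -/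
theorem periodic (h : NeckData N eps k t eta psi err) {x : ℂ} (hx : x ∈ E t) (m n : ℤ) :
    psi (x + (N : ℂ) * ((m : ℂ) + n * I)) = psi x := by
  have e : x + (N : ℂ) * ((m : ℂ) + n * I)
      = x + (((N * m : ℤ) : ℂ) + ((N * n : ℤ) : ℂ) * I) := by push_cast; ring
  rw [e, h.bloch x hx]
  have hN : (N : ℝ) ≠ 0 := by exact_mod_cast h.hN.ne'
  have e2 : kdot eps (((N * m : ℤ) : ℂ) + ((N * n : ℤ) : ℂ) * I)
      = ((m + 2 * n : ℤ) : ℝ) * (2 * Real.pi) := by
    have hre : (((N * m : ℤ) : ℂ) + ((N * n : ℤ) : ℂ) * I).re = N * m := by simp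
    have him : (((N * m : ℤ) : ℂ) + ((N * n : ℤ) : ℂ) * I).im = N * n := by simp
    unfold kdot
    rw [hre, him, h.heps]
    push_cast
    field_simp
  rw [e2]
  have e3 : I * ((((m + 2 * n : ℤ) : ℝ) * (2 * Real.pi) : ℝ) : ℂ)
      = ((m + 2 * n : ℤ) : ℂ) * (2 * Real.pi * I) := by push_cast; ring
  rw [e3, Complex.exp_int_mul_two_pi_mul_I, one_mul]

/-- (G2) Injectivity modulo `N L`. -/
theorem injective (h : NeckData N eps k t eta psi err) {x y : ℂ} (hx : x ∈ E t) (hy : y ∈ E t)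
    (h1 : psi x = psi y) (h2 : psi (I * x) = psi (I * y)) (h3 : psi (conj x) = psi (conj y))
    (h4 : psi (I * conj x) = psi (I * conj y)) :
    ∃ m n : ℤ, x = y + (N : ℂ) * ((m : ℂ) + n * I) := by
  have hk := h.k_pos
  have heps := h.eps_pos
  have hpi := Real.pi_pos
  set del : ℝ := k + t + 3 * Real.sqrt t + eta with hdel
  have hdel1 : del ≤ 1 / 1000 := h.small
  have hdel0 : 0 ≤ del := by
    have := h.ht
    have := h.heta
    have := Real.sqrt_nonneg t
    positivity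
  -- plane waves
  have w1 := h.wave_close hx hy h1
  have w2 := h.wave_close (E_mul_I hx) (E_mul_I hy) h2
  have w3 := h.wave_close (E_conj hx) (E_conj hy) h3
  have w4 := h.wave_close (E_mul_I (E_conj hx)) (E_mul_I (E_conj hy)) h4
  rw [← mul_sub] at w2
  rw [← map_sub] at w3
  rw [← mul_sub, ← map_sub] at w4
  set v : ℂ := x - y with hv
  set a : ℂ := Complex.exp (I * (eps * v.re : ℝ)) with ha
  set b : ℂ := Complex.exp (I * (eps * v.im : ℝ)) with hb
  have hna : ‖a‖ = 1 := by rw [ha, mul_comm, Complex.norm_exp_ofReal_mul_I]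
  have hnb : ‖b‖ = 1 := by rw [hb, mul_comm, Complex.norm_exp_ofReal_mul_I]
  have hb0 : b ≠ 0 := Complex.exp_ne_zero _
  have e1 : Complex.exp (I * kdot eps v) = a * b ^ 2 := by
    rw [ha, hb, ← Complex.exp_nat_mul, ← Complex.exp_add]
    congr 1
    simp only [kdot]; push_cast; ring
  have e2 : Complex.exp (I * kdot eps (I * v)) * b = a ^ 2 := by
    rw [ha, hb, ← Complex.exp_nat_mul, ← Complex.exp_add]
    congr 1
    simp only [kdot, Complex.mul_re, Complex.mul_im, Complex.I_re, Complex.I_im]; push_cast; ring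
  have e3 : Complex.exp (I * kdot eps (conj v)) * b ^ 2 = a := by
    rw [ha, hb, ← Complex.exp_nat_mul, ← Complex.exp_add]
    congr 1
    simp only [kdot, Complex.conj_re, Complex.conj_im]; push_cast; ring
  have e4 : Complex.exp (I * kdot eps (I * conj v)) = a ^ 2 * b := by
    rw [ha, hb, ← Complex.exp_nat_mul, ← Complex.exp_add]
    congr 1
    simp only [kdot, Complex.mul_re, Complex.mul_im, Complex.I_re, Complex.I_im, Complex.conj_re,
      Complex.conj_im]
    push_cast; ring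
  have u := unit_lemma (a := a) (b := b) (d := 2 * (k * del)) hna hnb
    (by rw [← e1]; exact w1)
    (by
      have : a ^ 2 - b = (Complex.exp (I * kdot eps (I * v)) - 1) * b := by rw [sub_mul, e2, one_mul]
      rw [this, norm_mul, hnb, mul_one]; exact w2)
    (by
      have : a - b ^ 2 = (Complex.exp (I * kdot eps (conj v)) - 1) * b ^ 2 := by
        rw [sub_mul, e3, one_mul]
      rw [this, norm_mul, norm_pow, hnb, one_pow, mul_one]; exact w3)
    (by rw [← e4]; exact w4)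
  obtain ⟨m, hm⟩ := near_two_pi_int u.1
  obtain ⟨n, hn⟩ := near_two_pi_int u.2
  have hN0 : (0 : ℝ) < N := by exact_mod_cast h.hN
  have h5 : Real.sqrt 5 ≤ 9 / 4 := by
    rw [Real.sqrt_le_left (by norm_num)]; norm_num
  have hcoord : ∀ (r : ℝ) (j : ℤ), |eps * r - 2 * Real.pi * j| ≤ Real.pi / 2 * (3 * (2 * (k * del))) →
      |r - N * j| ≤ 22 * del := by
    intro r j hj
    have e : eps * r - 2 * Real.pi * j = eps * (r - N * j) := by
      rw [h.heps]; field_simp
    rw [e, abs_mul, abs_of_pos heps, h.hk] at hj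
    have h6 : eps * |r - N * j| ≤ eps * (22 * del) := by
      refine hj.trans ?_
      have h7 : Real.pi ≤ 3.15 := Real.pi_lt_d2.le
      have h8 : Real.pi / 2 * (3 * (2 * (Real.sqrt 5 * eps * del)))
          = eps * (3 * Real.pi * Real.sqrt 5 * del) := by ring
      rw [h8]
      refine mul_le_mul_of_nonneg_left ?_ heps.le
      refine mul_le_mul_of_nonneg_right ?_ hdel0
      have h9 : Real.pi * Real.sqrt 5 ≤ 3.15 * (9 / 4) :=
        mul_le_mul h7 h5 (Real.sqrt_nonneg 5) (by norm_num)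
      nlinarith
    exact le_of_mul_le_mul_left h6 heps
  have hm' := hcoord v.re m hm
  have hn' := hcoord v.im n hn
  refine ⟨m, n, ?_⟩
  set y' : ℂ := y + (N : ℂ) * ((m : ℂ) + n * I) with hy'
  have hre : (x - y').re = v.re - N * m := by
    have : y'.re = y.re + N * m := by rw [hy']; simp
    rw [Complex.sub_re, this, hv, Complex.sub_re]; ring
  have him : (x - y').im = v.im - N * n := by
    have : y'.im = y.im + N * n := by rw [hy']; simp
    rw [Complex.sub_im, this, hv, Complex.sub_im]; ring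
  have hdist : ‖x - y'‖ ≤ 0.04 := by
    have h10 : |(x - y').re| ≤ 0.022 := by rw [hre]; exact hm'.trans (by linarith)
    have h11 : |(x - y').im| ≤ 0.022 := by rw [him]; exact hn'.trans (by linarith)
    apply (abs_le_of_sq_le_sq' (a := ‖x - y'‖) _ (by norm_num : (0 : ℝ) ≤ 0.04)).2
    rw [Complex.sq_norm, Complex.normSq_apply]
    have h12 := abs_le.1 h10
    have h13 := abs_le.1 h11
    nlinarith
  -- periodicity
  have hy'E : y' ∈ E t := by
    have := E_add hy (N * m) (N * n)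
    have e : y' = y + (((N * m : ℤ) : ℂ) + ((N * n : ℤ) : ℂ) * I) := by
      rw [hy']; push_cast; ring
    rw [e]; exact this
  have p1 : psi y' = psi y := h.periodic hy m n
  have p2 : psi (I * y') = psi (I * y) := by
    have e : I * y' = I * y + (N : ℂ) * (((-n : ℤ) : ℂ) + ((m : ℤ) : ℂ) * I) := by
      rw [hy']; push_cast
      have : I * I = -1 := I_mul_I
      linear_combination ((N : ℂ) * n) * this
    rw [e]; exact h.periodic (E_mul_I hy) _ _
  have p3 : psi (conj y') = psi (conj y) := by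
    have e : conj y' = conj y + (N : ℂ) * (((m : ℤ) : ℂ) + ((-n : ℤ) : ℂ) * I) := by
      rw [hy']
      simp only [map_add, map_mul, Complex.conj_I, map_natCast, map_intCast]
      push_cast; ring
    rw [e]; exact h.periodic (E_conj hy) _ _
  have p4 : psi (I * conj y') = psi (I * conj y) := by
    have e : I * conj y' = I * conj y + (N : ℂ) * (((n : ℤ) : ℂ) + ((m : ℤ) : ℂ) * I) := by
      rw [hy']
      simp only [map_add, map_mul, Complex.conj_I, map_natCast, map_intCast]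
      have : I * I = -1 := I_mul_I
      linear_combination (-(N : ℂ) * n) * this
    rw [e]; exact h.periodic (E_mul_I (E_conj hy)) _ _
  -- the common hole
  obtain ⟨c, d, hcd⟩ := exists_near x
  have hz1 := hx c d
  have hw1 := hy'E c d
  set z : ℂ := x - ((c : ℂ) + d * I) with hz
  set w : ℂ := y' - ((c : ℂ) + d * I) with hw
  have hzw : ‖z - w‖ ≤ 0.04 := by
    have : z - w = x - y' := by rw [hz, hw]; ring
    rw [this]; exact hdist
  have hz2 : ‖z‖ ≤ 3 / 4 := hcd.trans (by norm_num)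
  have hw2 : ‖w‖ ≤ 3 / 4 := by
    have : ‖w‖ ≤ ‖z‖ + ‖z - w‖ := by
      have := norm_sub_le z (z - w)
      simpa using this
    have h7 : ‖z‖ ≤ 0.7072 := hcd
    linarith
  have hxz : x = z + ((c : ℂ) + d * I) := by rw [hz]; ring
  have hyw : y' = w + ((c : ℂ) + d * I) := by rw [hw]; ring
  have hzE : z ∈ E t := by
    have h3 := E_add hx (-c) (-d)
    have e3 : x + (((-c : ℤ) : ℂ) + ((-d : ℤ) : ℂ) * I) = z := by
      rw [hz]; push_cast; ring
    rw [e3] at h3
    exact h3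
  have hwE : w ∈ E t := by
    have h3 := E_add hy'E (-c) (-d)
    have e3 : y' + (((-c : ℤ) : ℂ) + ((-d : ℤ) : ℂ) * I) = w := by
      rw [hw]; push_cast; ring
    rw [e3] at h3
    exact h3
  have cancel : ∀ (p q : ℂ) (r s : ℤ), p ∈ E t → q ∈ E t →
      psi (p + ((r : ℂ) + s * I)) = psi (q + ((r : ℂ) + s * I)) → psi p = psi q := by
    intro p q r s hp hq hpq
    rw [h.bloch p hp, h.bloch q hq] at hpq
    exact mul_left_cancel₀ (Complex.exp_ne_zero _) hpq
  have q1 : psi z = psi w := by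
    apply cancel z w c d hzE hwE
    rw [← hxz, ← hyw, p1]; exact h1
  have q2 : psi (I * z) = psi (I * w) := by
    apply cancel _ _ (-d) c (E_mul_I hzE) (E_mul_I hwE)
    have e : ∀ p : ℂ, I * p + (((-d : ℤ) : ℂ) + (c : ℂ) * I) = I * (p + ((c : ℂ) + d * I)) := by
      intro p
      have : I * I = -1 := I_mul_I
      push_cast
      linear_combination (-(d : ℂ)) * this
    rw [e, e, ← hxz, ← hyw, p2]; exact h2
  have q3 : psi (conj z) = psi (conj w) := by
    apply cancel _ _ c (-d) (E_conj hzE) (E_conj hwE)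
    have e : ∀ p : ℂ, conj p + ((c : ℂ) + ((-d : ℤ) : ℂ) * I) = conj (p + ((c : ℂ) + d * I)) := by
      intro p
      simp only [map_add, map_mul, Complex.conj_I, map_intCast]
      push_cast; ring
    rw [e, e, ← hxz, ← hyw, p3]; exact h3
  have q4 : psi (I * conj z) = psi (I * conj w) := by
    apply cancel _ _ d c (E_mul_I (E_conj hzE)) (E_mul_I (E_conj hwE))
    have e : ∀ p : ℂ, I * conj p + ((d : ℂ) + (c : ℂ) * I) = I * conj (p + ((c : ℂ) + d * I)) := by
      intro p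
      simp only [map_add, map_mul, Complex.conj_I, map_intCast]
      have : I * I = -1 := I_mul_I
      linear_combination ((d : ℂ)) * this
    rw [e, e, ← hxz, ← hyw, p4]; exact h4
  have := h.local_inj hz1 hz2 hw1 hw2 q1 q2 q3 q4
  rw [hxz, hyw, this]

end NeckData

end Pool.Agent.FB.GEO2
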