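import Mathlib
import Pool.Agent.FB.Geo.Mono
import Pool.Agent.FB.GEO2.Inj

/-!
# G2: injectivity of `u` modulo `N (ℤ + i ℤ)` (MP_15d50e_gt, module GEO)
-/

open Complex Set
open scoped ComplexConjugate Real

namespace FB

open Pool.Agent.FB.GEO2

theorem kap_re' (N : ℕ) : (kap N).re = 2 * π / N := by
  simp [kap]

theorem kap_im' (N : ℕ) : (kap N).im = 2 * π / N * 2 := by
  simp [kap]

theorem norm_kap' (N : ℕ) : ‖kap N‖ = Real.sqrt 5 * (2 * π / N) := by
  have h0 : (0 : ℝ) ≤ 2 * π / N := by positivity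
  rw [kap, norm_mul, Complex.norm_real, Real.norm_of_nonneg h0, mul_comm]
  congr 1
  rw [Complex.norm_def]
  congr 1
  simp [Complex.normSq_apply]
  norm_num

theorem dotp_kap (N : ℕ) (x : ℂ) : dotp (kap N) x = kdot (2 * π / N) x := by
  rw [dotp, kdot, kap_re', kap_im']
  ring

theorem mem_E_iff {t : ℝ} {x : ℂ} : x ∈ E t ↔ x ∈ ES t := by
  constructor
  · intro h p
    exact h p.1 p.2
  · intro h a b
    exact h (a, b)

theorem lp_mk (a b : ℤ) : lp (a, b) = (a : ℂ) + b * I := rfl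

theorem uMap_inj {c : ℝ} (hc : c ≠ 0) {ψ : ℂ → ℂ} {x y : ℂ} (h : uMap c ψ x = uMap c ψ y) :
    ψ x = ψ y ∧ ψ (I * x) = ψ (I * y) ∧ ψ (conj x) = ψ (conj y) ∧
      ψ (I * conj x) = ψ (I * conj y) := by
  have h0 := congrArg (fun v : Eu 8 => v 0) h
  have h1 := congrArg (fun v : Eu 8 => v 1) h
  have h2 := congrArg (fun v : Eu 8 => v 2) h
  have h3 := congrArg (fun v : Eu 8 => v 3) h
  have h4 := congrArg (fun v : Eu 8 => v 4) h
  have h5 := congrArg (fun v : Eu 8 => v 5) h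
  have h6 := congrArg (fun v : Eu 8 => v 6) h
  have h7 := congrArg (fun v : Eu 8 => v 7) h
  simp only [uMap] at h0 h1 h2 h3 h4 h5 h6 h7
  refine ⟨Complex.ext ?_ ?_, Complex.ext ?_ ?_, Complex.ext ?_ ?_, Complex.ext ?_ ?_⟩
  · exact mul_left_cancel₀ hc h0
  · exact mul_left_cancel₀ hc h1
  · exact mul_left_cancel₀ hc h2
  · exact mul_left_cancel₀ hc h3
  · exact mul_left_cancel₀ hc h4
  · exact mul_left_cancel₀ hc h5
  · exact mul_left_cancel₀ hc h6
  · exact mul_left_cancel₀ hc h7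

theorem IsSol.neck {N : ℕ} {η t c σ : ℝ} {ψ ω v ν : ℂ → ℂ} {ρ : ℂ → ℝ}
    (H : IsSol N η t c σ ψ ω v ν ρ) (hη : 0 < η) (hη1 : η ≤ 1 / 2000) (hN : 2000000000 ≤ N) :
    NeckData N (2 * π / N) ‖kap N‖ t η ψ (fun x => ψ x - modelPsi (kap N) t x) := by
  have hN0 : 0 < N := by omega
  have hNR : (2000000000 : ℝ) ≤ N := by exact_mod_cast hN
  have hNR0 : (0 : ℝ) < N := by linarith
  have hk := norm_kap' N
  have h5 : Real.sqrt 5 ≤ 9 / 4 := by
    rw [Real.sqrt_le_left (by norm_num)]; norm_num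
  have hpi : π ≤ 3.15 := Real.pi_lt_d2.le
  have hpi3 : 3 < π := Real.pi_gt_three
  have hkpos : 0 < ‖kap N‖ := by rw [hk]; positivity
  have hksmall : ‖kap N‖ ≤ 1 / 100000000 := by
    rw [hk]
    have e : Real.sqrt 5 * (2 * π / N) = 2 * (Real.sqrt 5 * π) / N := by ring
    rw [e, div_le_iff₀ hNR0]
    have h6 : Real.sqrt 5 * π ≤ 9 / 4 * 3.15 := mul_le_mul h5 hpi Real.pi_pos.le (by norm_num)
    nlinarith
  have htk : t ≤ ‖kap N‖ := by
    have h7 := (abs_le.1 H.tnear).2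
    have h8 : t / ‖kap N‖ ≤ 1 := by
      have h9 : 1 / (2 * Real.sqrt 2 * π) ≤ 1 / 2 := by
        apply one_div_le_one_div_of_le (by norm_num)
        have : 1 ≤ Real.sqrt 2 := by
          rw [Real.one_le_sqrt]; norm_num
        nlinarith
      linarith
    rwa [div_le_one hkpos] at h8
  have ht := H.tpos
  have hsq : Real.sqrt t ≤ 1 / 10000 := by
    rw [Real.sqrt_le_left (by norm_num)]
    calc t ≤ ‖kap N‖ := htk
      _ ≤ 1 / 100000000 := hksmall
      _ ≤ (1 / 10000 : ℝ) ^ 2 := by norm_num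
  refine
    { hN := hN0
      heps := rfl
      hk := hk
      ht := ht
      heta := hη.le
      bloch := ?_
      model := ?_
      err_le := ?_
      err_lip := ?_
      small := ?_ }
  · intro x hx a b
    have hx' : x ∈ US (t / 2) := ES_subset_US_half ht (mem_E_iff.1 hx)
    have h9 := H.psi.bloch x hx' (a, b)
    rw [lp_mk] at h9
    rw [h9, chi, kap_re', kap_im']
    congr 2
    have hre : ((a : ℂ) + b * I).re = a := by simp
    have him : ((a : ℂ) + b * I).im = b := by simp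
    rw [kdot, hre, him, mul_comm]
    congr 2
    ring
  · intro z _ _
    rw [modelPsi, dotp_kap]
    have e : Xmap t z = X t z := rfl
    rw [e]
    ring
  · intro z h1 h2
    exact H.close z h1 h2
  · intro z w h1 h2 h3 h4
    have h9 := H.lip z w h1 h2 h3 h4
    refine h9.trans ?_
    have : 0 ≤ η * ‖kap N‖ * ‖z - w‖ := by positivity
    nlinarith
  · linarith

/-- G2 for solutions. -/
theorem IsSol.g2 {N : ℕ} {η t c σ : ℝ} {ψ ω v ν : ℂ → ℂ} {ρ : ℂ → ℝ}
    (H : IsSol N η t c σ ψ ω v ν ρ) (hη : 0 < η) (hη1 : η ≤ 1 / 2000) (hN : 2000000000 ≤ N) :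
    G2 N t c ψ := by
  intro x hx y hy hxy
  have hc : c ≠ 0 := by
    have := (abs_le.1 H.cnear).1
    intro h
    rw [h] at this
    linarith
  obtain ⟨h1, h2, h3, h4⟩ := uMap_inj hc hxy
  obtain ⟨m, n, h⟩ := (H.neck hη hη1 hN).injective (mem_E_iff.2 hy) (mem_E_iff.2 hx)
    h1.symm h2.symm h3.symm h4.symm
  exact ⟨(m, n), by rw [lp_mk]; exact h⟩

/-- G2 holds for small `η` and large `N`. -/
theorem g2 : ForSmall fun N t c ψ => G2 N t c ψ :=
  ⟨1 / 2000, 2000000000, by norm_num, fun _ hN _ _ _ _ _ _ _ _ H =>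
    H.g2 (by norm_num) le_rfl hN⟩

end FB
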