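import Pool.Agent.FB.Geo.Main
import Pool.Agent.FB.GEO2.Main

/-!
# TheoremGEO (MP_15d50e_gt)
-/

namespace FB

/-- The geometric part of the construction. -/
theorem theoremGEO : TheoremGEO := geo_of_g2 g2

end FB
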